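import Pool.Agent.H739SJ.Main

/-!
Commutative alternative algebras in characteristic three.
-/

namespace Pool.Agent.H739SA

open ExteriorAlgebra Pool.Agent.H739SJ

universe u

variable {F : Type u} [Field F] {W : Type u} [AddCommGroup W] [Module F W]

/-- The underlying space: `V ⊕ M ⊕ N ⊕ Z`. -/
def CA (_τ : ExteriorAlgebra F W →ₗ[F] F) : Type u :=
  W × ExteriorAlgebra F W × ExteriorAlgebra F W × F

variable {τ : ExteriorAlgebra F W →ₗ[F] F}

instance : AddCommGroup (CA τ) :=
  inferInstanceAs (AddCommGroup (W × ExteriorAlgebra F W × ExteriorAlgebra F W × F))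

instance : Module F (CA τ) :=
  inferInstanceAs (Module F (W × ExteriorAlgebra F W × ExteriorAlgebra F W × F))

namespace CA

/-- the `V`-component -/
def c (X : CA τ) : W := X.1
/-- the `M`-component -/
def al (X : CA τ) : ExteriorAlgebra F W := X.2.1
/-- the `N`-component -/
def de (X : CA τ) : ExteriorAlgebra F W := X.2.2.1
/-- the `Z`-component -/
def z (X : CA τ) : F := X.2.2.2

/-- constructor -/
def mk (c : W) (al : ExteriorAlgebra F W) (de : ExteriorAlgebra F W) (z : F) : CA τ :=
  (c, al, de, z)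

theorem ext {X Y : CA τ} (h1 : X.c = Y.c) (h2 : X.al = Y.al) (h3 : X.de = Y.de)
    (h4 : X.z = Y.z) : X = Y :=
  Prod.ext h1 (Prod.ext h2 (Prod.ext h3 h4))

@[simp] theorem c_mk (a b d e) : (mk a b d e : CA τ).c = a := rfl
@[simp] theorem al_mk (a b d e) : (mk a b d e : CA τ).al = b := rfl
@[simp] theorem de_mk (a b d e) : (mk a b d e : CA τ).de = d := rfl
@[simp] theorem z_mk (a b d e) : (mk a b d e : CA τ).z = e := rfl

@[simp] theorem c_zero : (0 : CA τ).c = 0 := rfl
@[simp] theorem al_zero : (0 : CA τ).al = 0 := rfl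
@[simp] theorem de_zero : (0 : CA τ).de = 0 := rfl
@[simp] theorem z_zero : (0 : CA τ).z = 0 := rfl
@[simp] theorem c_add (X Y : CA τ) : (X + Y).c = X.c + Y.c := rfl
@[simp] theorem al_add (X Y : CA τ) : (X + Y).al = X.al + Y.al := rfl
@[simp] theorem de_add (X Y : CA τ) : (X + Y).de = X.de + Y.de := rfl
@[simp] theorem z_add (X Y : CA τ) : (X + Y).z = X.z + Y.z := rfl
@[simp] theorem c_sub (X Y : CA τ) : (X - Y).c = X.c - Y.c := rfl
@[simp] theorem al_sub (X Y : CA τ) : (X - Y).al = X.al - Y.al := rfl
@[simp] theorem de_sub (X Y : CA τ) : (X - Y).de = X.de - Y.de := rfl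
@[simp] theorem z_sub (X Y : CA τ) : (X - Y).z = X.z - Y.z := rfl
@[simp] theorem c_smul (r : F) (X : CA τ) : (r • X).c = r • X.c := rfl
@[simp] theorem al_smul (r : F) (X : CA τ) : (r • X).al = r • X.al := rfl
@[simp] theorem de_smul (r : F) (X : CA τ) : (r • X).de = r • X.de := rfl
@[simp] theorem z_smul (r : F) (X : CA τ) : (r • X).z = r • X.z := rfl

/-- half of the product -/
noncomputable def half (X Y : CA τ) : CA τ :=
  mk 0 (X.al * ExteriorAlgebra.ι F Y.c)
    (ExteriorAlgebra.ι F Y.c * X.de + (ev X.al * od Y.al - ev X.al * ev Y.al))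
    (τ (ev X.al * ev Y.de) - τ (od X.al * od Y.de))

noncomputable instance : Mul (CA τ) := ⟨fun X Y => half X Y + half Y X⟩

theorem mul_def (X Y : CA τ) : X * Y = half X Y + half Y X := rfl

@[simp] theorem c_mul (X Y : CA τ) : (X * Y).c = 0 := by
  simp [mul_def, half]

theorem al_mul (X Y : CA τ) : (X * Y).al
    = X.al * ExteriorAlgebra.ι F Y.c + Y.al * ExteriorAlgebra.ι F X.c := by
  simp [mul_def, half]

theorem z_mul (X Y : CA τ) : (X * Y).z
    = τ (ev X.al * ev Y.de) - τ (od X.al * od Y.de)
      + (τ (ev Y.al * ev X.de) - τ (od Y.al * od X.de)) := by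
  simp [mul_def, half]

theorem de_mul (X Y : CA τ) : (X * Y).de
    = (ExteriorAlgebra.ι F Y.c * X.de + (ev X.al * od Y.al - ev X.al * ev Y.al))
      + (ExteriorAlgebra.ι F X.c * Y.de + (ev Y.al * od X.al - ev Y.al * ev X.al)) := by
  simp [mul_def, half]

theorem half_add_left (X Y Z : CA τ) : half (X + Y) Z = half X Z + half Y Z := by
  refine ext ?_ ?_ ?_ ?_
  · simp [half]
  · simp [half, add_mul]
  · simp only [half, de_mk, de_add, al_add, map_add, add_mul, mul_add]; abel
  · simp only [half, z_mk, z_add, al_add, map_add, add_mul]; ring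

theorem half_add_right (X Y Z : CA τ) : half X (Y + Z) = half X Y + half X Z := by
  refine ext ?_ ?_ ?_ ?_
  · simp [half]
  · simp [half, mul_add]
  · simp only [half, de_mk, de_add, al_add, c_add, map_add, mul_add, add_mul]; abel
  · simp only [half, z_mk, z_add, de_add, map_add, mul_add]; ring

theorem half_smul_left (r : F) (X Y : CA τ) : half (r • X) Y = r • half X Y := by
  refine ext ?_ ?_ ?_ ?_
  · simp [half]
  · simp [half]
  · simp only [half, de_mk, de_smul, al_smul, map_smul, smul_mul_assoc, smul_add, smul_sub,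
      mul_smul_comm]
  · simp only [half, z_mk, z_smul, al_smul, map_smul, smul_mul_assoc, smul_sub]

theorem half_smul_right (r : F) (X Y : CA τ) : half X (r • Y) = r • half X Y := by
  refine ext ?_ ?_ ?_ ?_
  · simp [half]
  · simp [half]
  · simp only [half, de_mk, de_smul, al_smul, c_smul, map_smul, smul_mul_assoc, smul_add,
      smul_sub, mul_smul_comm]
  · simp only [half, z_mk, z_smul, de_smul, map_smul, mul_smul_comm, smul_sub]

noncomputable instance : NonUnitalNonAssocRing (CA τ) :=
  { (inferInstance : AddCommGroup (CA τ)) with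
    mul := (· * ·)
    left_distrib := fun X Y Z => by
      change X * (Y + Z) = X * Y + X * Z
      simp only [mul_def, half_add_left, half_add_right]; abel
    right_distrib := fun X Y Z => by
      change (X + Y) * Z = X * Z + Y * Z
      simp only [mul_def, half_add_left, half_add_right]; abel
    zero_mul := fun X => by
      change (0 : CA τ) * X = 0
      have h1 := half_smul_left (0 : F) (0 : CA τ) X
      have h2 := half_smul_right (0 : F) X (0 : CA τ)
      simp only [zero_smul] at h1 h2
      rw [mul_def, h1, h2, add_zero]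
    mul_zero := fun X => by
      change X * (0 : CA τ) = 0
      have h1 := half_smul_left (0 : F) (0 : CA τ) X
      have h2 := half_smul_right (0 : F) X (0 : CA τ)
      simp only [zero_smul] at h1 h2
      rw [mul_def, h1, h2, add_zero] }

instance : IsScalarTower F (CA τ) (CA τ) := ⟨fun r X Y => by
  change (r • X) * Y = r • (X * Y)
  simp only [mul_def, half_smul_left, half_smul_right, smul_add]⟩

instance : SMulCommClass F (CA τ) (CA τ) := ⟨fun r X Y => by
  change r • (X * Y) = X * (r • Y)
  simp only [mul_def, half_smul_left, half_smul_right, smul_add]⟩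

theorem comm (X Y : CA τ) : X * Y = Y * X := by
  rw [mul_def, mul_def, add_comm]

set_option linter.unusedSimpArgs false in
theorem alt (h2 : (2 : F) ≠ 0) (h3 : (3 : F) = 0) (X Y : CA τ) :
    (X * X) * Y = X * (X * Y) := by
  obtain ⟨c, hc⟩ : ∃ c, c = X.c := ⟨_, rfl⟩
  obtain ⟨c', hc'⟩ : ∃ c', c' = Y.c := ⟨_, rfl⟩
  have s1 : ExteriorAlgebra.ι F c' * ExteriorAlgebra.ι F c
      = -(ExteriorAlgebra.ι F c * ExteriorAlgebra.ι F c') := ι_swap _ _
  have s2 : ∀ t, ExteriorAlgebra.ι F c' * (ExteriorAlgebra.ι F c * t)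
      = -(ExteriorAlgebra.ι F c * (ExteriorAlgebra.ι F c' * t)) := by
    intro t; rw [← mul_assoc, s1, neg_mul, mul_assoc]
  have r0 : od Y.al * od X.al = -(od X.al * od Y.al) := od_anti h2 _ _
  have r0' : ∀ t, od Y.al * (od X.al * t) = -(od X.al * (od Y.al * t)) := by
    intro t; rw [← mul_assoc, r0, neg_mul, mul_assoc]
  have r1 : od X.de * od X.al = -(od X.al * od X.de) := od_anti h2 _ _
  have r1' : ∀ t, od X.de * (od X.al * t) = -(od X.al * (od X.de * t)) := by
    intro t; rw [← mul_assoc, r1, neg_mul, mul_assoc]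
  have r2 : od Y.de * od X.al = -(od X.al * od Y.de) := od_anti h2 _ _
  have r2' : ∀ t, od Y.de * (od X.al * t) = -(od X.al * (od Y.de * t)) := by
    intro t; rw [← mul_assoc, r2, neg_mul, mul_assoc]
  have r3 : od X.de * od Y.al = -(od Y.al * od X.de) := od_anti h2 _ _
  have r3' : ∀ t, od X.de * (od Y.al * t) = -(od Y.al * (od X.de * t)) := by
    intro t; rw [← mul_assoc, r3, neg_mul, mul_assoc]
  have r4 : od Y.de * od Y.al = -(od Y.al * od Y.de) := od_anti h2 _ _
  have r4' : ∀ t, od Y.de * (od Y.al * t) = -(od Y.al * (od Y.de * t)) := by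
    intro t; rw [← mul_assoc, r4, neg_mul, mul_assoc]
  have r5 : od Y.de * od X.de = -(od X.de * od Y.de) := od_anti h2 _ _
  have r5' : ∀ t, od Y.de * (od X.de * t) = -(od X.de * (od Y.de * t)) := by
    intro t; rw [← mul_assoc, r5, neg_mul, mul_assoc]
  refine ext ?_ ?_ ?_ ?_
  · simp
  · rw [← sub_eq_zero]
    simp only [al_mul, c_mul, map_zero, mul_zero, add_zero, ← hc, ← hc', zero_add, add_mul,
      mul_assoc, s1, mul_neg, ExteriorAlgebra.ι_sq_zero, ιsq']
    have : (3 : F) • (X.al * (ExteriorAlgebra.ι F c * ExteriorAlgebra.ι F c')) = 0 := by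
      rw [h3, zero_smul]
    rw [← this]
    module
  · simp only [al_mul, de_mul, c_mul, map_zero, mul_zero, add_zero, smul_zero, zero_add,
      ← hc, ← hc', map_add, map_sub, map_smul, map_neg, ev_mul h2, od_mul h2, ev_ev h2, od_od h2,
      ev_od, od_ev, ev_ι, od_ι h2, zero_mul, add_mul, mul_add, sub_mul, mul_sub, smul_add,
      smul_smul, smul_mul_assoc, mul_smul_comm, mul_assoc, s1, s2, mul_neg, neg_mul,
      ExteriorAlgebra.ι_sq_zero, ιsq', evι h2, evι' h2, odι, odι' h2, odev h2, odev' h2, evev h2, evev' h2,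
      od_sq h2, od_sq' h2, neg_neg, smul_neg, neg_zero, sub_zero, zero_sub, sub_self,
      r0, r0', r1, r1', r2, r2', r3, r3', r4, r4', r5, r5']
    refine (one_smul F _).symm.trans (Eq.trans ?_ (one_smul F _))
    match_scalars <;> first | ring1 | linear_combination h3 | linear_combination -h3 |
      linear_combination 2 * h3 | linear_combination -2 * h3
  · simp only [z_mul, c_mul, map_zero, mul_zero, zero_mul, zero_add, add_zero, ← map_add, ← map_sub]
    congr 1
    simp only [al_mul, de_mul, c_mul, map_zero, mul_zero, add_zero, smul_zero, zero_add,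
      ← hc, ← hc', map_add, map_sub, map_smul, map_neg, ev_mul h2, od_mul h2, ev_ev h2, od_od h2,
      ev_od, od_ev, ev_ι, od_ι h2, zero_mul, add_mul, mul_add, sub_mul, mul_sub, smul_add,
      smul_smul, smul_mul_assoc, mul_smul_comm, mul_assoc, s1, s2, mul_neg, neg_mul,
      ExteriorAlgebra.ι_sq_zero, ιsq', evι h2, evι' h2, odι, odι' h2, odev h2, odev' h2, evev h2, evev' h2,
      od_sq h2, od_sq' h2, neg_neg, smul_neg, neg_zero, sub_zero, zero_sub, sub_self,
      r0, r0', r1, r1', r2, r2', r3, r3', r4, r4', r5, r5']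
    refine (one_smul F _).symm.trans (Eq.trans ?_ (one_smul F _))
    match_scalars <;> first | ring1 | linear_combination h3 | linear_combination -h3 |
      linear_combination 2 * h3 | linear_combination -2 * h3

end CA

end Pool.Agent.H739SA
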