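import Pool.Agent.H739SA.Alg

/-!
The identities and their values in the commutative alternative algebras.
-/

namespace Pool.Agent.H739SA

open ExteriorAlgebra Pool.Agent.H739SJ

universe u

variable {F : Type u} [Field F] {W : Type u} [AddCommGroup W] [Module F W]

/-- the trilinear expression giving the `Z`-component of `(P Q) S` -/
noncomputable def Phi (P Q S : ExteriorAlgebra F W) : ExteriorAlgebra F W :=
  ev S * (-(ev P * ev Q) - ev Q * ev P) - od S * (ev P * od Q + ev Q * od P)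

set_option linter.unusedSimpArgs false in
theorem Ecomp (h2 : (2 : F) ≠ 0) (h3 : (3 : F) = 0) (A B0 B1 B2 B3 T : ExteriorAlgebra F W)
    (c n0 n1 n2 n3 : W) :
    Phi ((A * ExteriorAlgebra.ι F n0 + B0 * ExteriorAlgebra.ι F c)
          * (ExteriorAlgebra.ι F n3 * ev T))
        (A * ExteriorAlgebra.ι F n1 + B1 * ExteriorAlgebra.ι F c)
        (A * ExteriorAlgebra.ι F n2 + B2 * ExteriorAlgebra.ι F c)
    + Phi ((A * ExteriorAlgebra.ι F n3 + B3 * ExteriorAlgebra.ι F c)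
          * (ExteriorAlgebra.ι F n0 * ev T))
        (A * ExteriorAlgebra.ι F n2 + B2 * ExteriorAlgebra.ι F c)
        (A * ExteriorAlgebra.ι F n1 + B1 * ExteriorAlgebra.ι F c)
    - Phi ((A * ExteriorAlgebra.ι F n3 + B3 * ExteriorAlgebra.ι F c)
          * (ExteriorAlgebra.ι F n1 * ev T))
        (A * ExteriorAlgebra.ι F n2 + B2 * ExteriorAlgebra.ι F c)
        (A * ExteriorAlgebra.ι F n0 + B0 * ExteriorAlgebra.ι F c)
    + Phi ((A * ExteriorAlgebra.ι F n3 + B3 * ExteriorAlgebra.ι F c)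
          * (ExteriorAlgebra.ι F n2 * ev T))
        (A * ExteriorAlgebra.ι F n1 + B1 * ExteriorAlgebra.ι F c)
        (A * ExteriorAlgebra.ι F n0 + B0 * ExteriorAlgebra.ι F c)
    = ev A * (ev A * (ev A * (ExteriorAlgebra.ι F n0 * (ExteriorAlgebra.ι F n1
        * (ExteriorAlgebra.ι F n2 * (ExteriorAlgebra.ι F n3 * ev T)))))) := by
  have s0 : ExteriorAlgebra.ι F n0 * ExteriorAlgebra.ι F c
      = -(ExteriorAlgebra.ι F c * ExteriorAlgebra.ι F n0) := ι_swap _ _
  have s0' : ∀ t, ExteriorAlgebra.ι F n0 * (ExteriorAlgebra.ι F c * t)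
      = -(ExteriorAlgebra.ι F c * (ExteriorAlgebra.ι F n0 * t)) := by
    intro t; rw [← mul_assoc, s0, neg_mul, mul_assoc]
  have s1 : ExteriorAlgebra.ι F n1 * ExteriorAlgebra.ι F c
      = -(ExteriorAlgebra.ι F c * ExteriorAlgebra.ι F n1) := ι_swap _ _
  have s1' : ∀ t, ExteriorAlgebra.ι F n1 * (ExteriorAlgebra.ι F c * t)
      = -(ExteriorAlgebra.ι F c * (ExteriorAlgebra.ι F n1 * t)) := by
    intro t; rw [← mul_assoc, s1, neg_mul, mul_assoc]
  have s2 : ExteriorAlgebra.ι F n2 * ExteriorAlgebra.ι F c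
      = -(ExteriorAlgebra.ι F c * ExteriorAlgebra.ι F n2) := ι_swap _ _
  have s2' : ∀ t, ExteriorAlgebra.ι F n2 * (ExteriorAlgebra.ι F c * t)
      = -(ExteriorAlgebra.ι F c * (ExteriorAlgebra.ι F n2 * t)) := by
    intro t; rw [← mul_assoc, s2, neg_mul, mul_assoc]
  have s3 : ExteriorAlgebra.ι F n3 * ExteriorAlgebra.ι F c
      = -(ExteriorAlgebra.ι F c * ExteriorAlgebra.ι F n3) := ι_swap _ _
  have s3' : ∀ t, ExteriorAlgebra.ι F n3 * (ExteriorAlgebra.ι F c * t)
      = -(ExteriorAlgebra.ι F c * (ExteriorAlgebra.ι F n3 * t)) := by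
    intro t; rw [← mul_assoc, s3, neg_mul, mul_assoc]
  have s4 : ExteriorAlgebra.ι F n1 * ExteriorAlgebra.ι F n0
      = -(ExteriorAlgebra.ι F n0 * ExteriorAlgebra.ι F n1) := ι_swap _ _
  have s4' : ∀ t, ExteriorAlgebra.ι F n1 * (ExteriorAlgebra.ι F n0 * t)
      = -(ExteriorAlgebra.ι F n0 * (ExteriorAlgebra.ι F n1 * t)) := by
    intro t; rw [← mul_assoc, s4, neg_mul, mul_assoc]
  have s5 : ExteriorAlgebra.ι F n2 * ExteriorAlgebra.ι F n0
      = -(ExteriorAlgebra.ι F n0 * ExteriorAlgebra.ι F n2) := ι_swap _ _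
  have s5' : ∀ t, ExteriorAlgebra.ι F n2 * (ExteriorAlgebra.ι F n0 * t)
      = -(ExteriorAlgebra.ι F n0 * (ExteriorAlgebra.ι F n2 * t)) := by
    intro t; rw [← mul_assoc, s5, neg_mul, mul_assoc]
  have s6 : ExteriorAlgebra.ι F n3 * ExteriorAlgebra.ι F n0
      = -(ExteriorAlgebra.ι F n0 * ExteriorAlgebra.ι F n3) := ι_swap _ _
  have s6' : ∀ t, ExteriorAlgebra.ι F n3 * (ExteriorAlgebra.ι F n0 * t)
      = -(ExteriorAlgebra.ι F n0 * (ExteriorAlgebra.ι F n3 * t)) := by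
    intro t; rw [← mul_assoc, s6, neg_mul, mul_assoc]
  have s7 : ExteriorAlgebra.ι F n2 * ExteriorAlgebra.ι F n1
      = -(ExteriorAlgebra.ι F n1 * ExteriorAlgebra.ι F n2) := ι_swap _ _
  have s7' : ∀ t, ExteriorAlgebra.ι F n2 * (ExteriorAlgebra.ι F n1 * t)
      = -(ExteriorAlgebra.ι F n1 * (ExteriorAlgebra.ι F n2 * t)) := by
    intro t; rw [← mul_assoc, s7, neg_mul, mul_assoc]
  have s8 : ExteriorAlgebra.ι F n3 * ExteriorAlgebra.ι F n1
      = -(ExteriorAlgebra.ι F n1 * ExteriorAlgebra.ι F n3) := ι_swap _ _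
  have s8' : ∀ t, ExteriorAlgebra.ι F n3 * (ExteriorAlgebra.ι F n1 * t)
      = -(ExteriorAlgebra.ι F n1 * (ExteriorAlgebra.ι F n3 * t)) := by
    intro t; rw [← mul_assoc, s8, neg_mul, mul_assoc]
  have s9 : ExteriorAlgebra.ι F n3 * ExteriorAlgebra.ι F n2
      = -(ExteriorAlgebra.ι F n2 * ExteriorAlgebra.ι F n3) := ι_swap _ _
  have s9' : ∀ t, ExteriorAlgebra.ι F n3 * (ExteriorAlgebra.ι F n2 * t)
      = -(ExteriorAlgebra.ι F n2 * (ExteriorAlgebra.ι F n3 * t)) := by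
    intro t; rw [← mul_assoc, s9, neg_mul, mul_assoc]
  have r0 : od B0 * od A = -(od A * od B0) := od_anti h2 _ _
  have r0' : ∀ t, od B0 * (od A * t) = -(od A * (od B0 * t)) := by
    intro t; rw [← mul_assoc, r0, neg_mul, mul_assoc]
  have r1 : od B1 * od A = -(od A * od B1) := od_anti h2 _ _
  have r1' : ∀ t, od B1 * (od A * t) = -(od A * (od B1 * t)) := by
    intro t; rw [← mul_assoc, r1, neg_mul, mul_assoc]
  have r2 : od B2 * od A = -(od A * od B2) := od_anti h2 _ _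
  have r2' : ∀ t, od B2 * (od A * t) = -(od A * (od B2 * t)) := by
    intro t; rw [← mul_assoc, r2, neg_mul, mul_assoc]
  have r3 : od B3 * od A = -(od A * od B3) := od_anti h2 _ _
  have r3' : ∀ t, od B3 * (od A * t) = -(od A * (od B3 * t)) := by
    intro t; rw [← mul_assoc, r3, neg_mul, mul_assoc]
  simp only [Phi, map_zero, mul_zero, add_zero, smul_zero, zero_add,
    map_add, map_sub, map_smul, map_neg, ev_mul h2, od_mul h2, ev_ev h2, od_od h2,
    ev_od, od_ev, ev_ι, od_ι h2, zero_mul, add_mul, mul_add, sub_mul, mul_sub, smul_add,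
    smul_smul, smul_mul_assoc, mul_smul_comm, mul_assoc, mul_neg, neg_mul,
    ExteriorAlgebra.ι_sq_zero, ιsq', evι h2, evι' h2, odι, odι' h2, odev h2, odev' h2,
    evev h2, evev' h2, od_sq h2, od_sq' h2, neg_neg, smul_neg, neg_zero, sub_zero, zero_sub,
    sub_self, s0, s0', s1, s1', s2, s2', s3, s3', s4, s4', s5, s5', s6, s6', s7, s7', s8, s8', s9, s9', r0, r0', r1, r1', r2, r2', r3, r3']
  refine (one_smul F _).symm.trans (Eq.trans ?_ (one_smul F _))
  match_scalars <;> first | ring1 | linear_combination h3 | linear_combination -h3 |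
    linear_combination 2 * h3 | linear_combination -2 * h3

end Pool.Agent.H739SA
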