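import Pool.Agent.H739SA.Comp

/-!
Solvable varieties of commutative alternative algebras in characteristic three
without a finite basis of identities.
-/

namespace Pool.Agent.H739SA

open ExteriorAlgebra Pool.Agent.H739SJ

universe u v

/-- `B` is an alternative algebra: `(x,x,y) = 0` and `(y,x,x) = 0`. -/
def IsAlternativeAlgebra (B : Type u) [NonUnitalNonAssocRing B] : Prop :=
  (∀ x y : B, (x * x) * y - x * (x * y) = 0) ∧ ∀ x y : B, (y * x) * x - y * (x * x) = 0

/-- the identities -/
def ff {A : Type v} [NonUnitalNonAssocRing A] (t : ℕ → A) (n : ℕ) (x y0 y1 y2 y3 : A) : A :=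
  ((fill t ((x * y0) * y3) n) * (x * y1)) * (x * y2)
  + ((fill t ((x * y3) * y0) n) * (x * y2)) * (x * y1)
  - ((fill t ((x * y3) * y1) n) * (x * y2)) * (x * y0)
  + ((fill t ((x * y3) * y2) n) * (x * y1)) * (x * y0)

section values

variable {F : Type u} [Field F] {W : Type u} [AddCommGroup W] [Module F W]
  {τ : ExteriorAlgebra F W →ₗ[F] F}

open CA

theorem fill_c (t : ℕ → CA τ) (s : CA τ) (hs : s.c = 0) (n : ℕ) :
    (fill t s n).c = 0 ∧ (fill t s n).al = s.al * wp (fun i => (t i).c) n := by
  induction n with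
  | zero => exact ⟨hs, by simp [fill, wp]⟩
  | succ n ih =>
    refine ⟨by simp [fill], ?_⟩
    rw [fill, al_mul, ih.1, ih.2, map_zero, mul_zero, add_zero, mul_assoc]
    rfl

theorem triple (h2 : (2 : F) ≠ 0) (P Q S : CA τ) (hP : P.c = 0) (hQ : Q.c = 0) (hS : S.c = 0) :
    (P * Q) * S = mk 0 0 0 (τ (Phi P.al Q.al S.al)) := by
  have hal : (P * Q).al = 0 := by
    rw [al_mul, hP, hQ, map_zero, mul_zero, mul_zero, add_zero]
  have hde : (P * Q).de = (ev P.al * od Q.al - ev P.al * ev Q.al)
      + (ev Q.al * od P.al - ev Q.al * ev P.al) := by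
    rw [de_mul, hP, hQ, map_zero, zero_mul, zero_mul, zero_add, zero_add]
  refine ext ?_ ?_ ?_ ?_
  · simp
  · rw [al_mul, hal, hS, c_mul, map_zero, mul_zero, mul_zero, add_zero]; rfl
  · rw [de_mul, hal, hS, c_mul]
    simp
  · rw [z_mul, hal, z_mk, Phi, hde]
    simp only [map_zero, zero_mul, sub_zero, zero_add, map_add, map_sub, ev_mul h2, od_mul h2,
      ev_ev h2, od_od h2, ev_od, od_ev, mul_zero, add_zero, mul_add, mul_sub, mul_neg, map_neg]
    abel

theorem ff_val (h2 : (2 : F) ≠ 0) (h3 : (3 : F) = 0) (t : ℕ → CA τ) (n : ℕ) (hn : Even n)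
    (x : CA τ) (y : ℕ → CA τ) :
    ff t n x (y 0) (y 1) (y 2) (y 3)
      = mk 0 0 0 (τ ((ev x.al) ^ 3 * (wp (fun i => (y i).c) 4 * wp (fun i => (t i).c) n))) := by
  have hΘ : sg (wp (F := F) (fun i => (t i).c) n) = wp (fun i => (t i).c) n := by
    rw [sg_wp, hn.neg_one_pow, one_smul]
  have hev : ev (wp (F := F) (fun i => (t i).c) n) = wp (fun i => (t i).c) n := by
    rw [ev_apply, hΘ, ← two_smul F, smul_smul, inv_mul_cancel₀ h2, one_smul]
  have hP : ∀ a b : CA τ, (fill t ((x * a) * b) n).c = 0 ∧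
      (fill t ((x * a) * b) n).al
        = (x.al * ExteriorAlgebra.ι F a.c + a.al * ExteriorAlgebra.ι F x.c)
          * (ExteriorAlgebra.ι F b.c * ev (wp (F := F) (fun i => (t i).c) n)) := by
    intro a b
    have := fill_c t ((x * a) * b) (c_mul _ _) n
    refine ⟨this.1, ?_⟩
    rw [this.2, al_mul (x * a), c_mul, map_zero, mul_zero, add_zero, mul_assoc, al_mul, hev]
  have hadd : ∀ a b : F, (mk 0 0 0 a : CA τ) + mk 0 0 0 b = mk 0 0 0 (a + b) := by
    intro a b
    refine ext ?_ ?_ ?_ rfl <;> simp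
  have hsub : ∀ a b : F, (mk 0 0 0 a : CA τ) - mk 0 0 0 b = mk 0 0 0 (a - b) := by
    intro a b
    refine ext ?_ ?_ ?_ rfl <;> simp
  rw [ff, triple h2 _ _ _ (hP _ _).1 (c_mul _ _) (c_mul _ _),
    triple h2 _ _ _ (hP _ _).1 (c_mul _ _) (c_mul _ _),
    triple h2 _ _ _ (hP _ _).1 (c_mul _ _) (c_mul _ _),
    triple h2 _ _ _ (hP _ _).1 (c_mul _ _) (c_mul _ _), hadd, hsub, hadd, ← map_add, ← map_sub,
    ← map_add, (hP _ _).2, (hP _ _).2, (hP _ _).2, (hP _ _).2, al_mul, al_mul, al_mul]
  rw [Ecomp h2 h3]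
  congr 2
  rw [hev]
  simp only [wp, pow_succ, pow_zero, one_mul, mul_assoc]

theorem ff_zero [CharP F 3] (m n : ℕ) (hn : Even n) (hm : m ≠ 4 + n)
    (t : ℕ → CA (topf F m)) (x : CA (topf F m)) (y : ℕ → CA (topf F m)) :
    ff t n x (y 0) (y 1) (y 2) (y 3) = 0 := by
  have h3 : (3 : F) = 0 := by exact_mod_cast CharP.cast_eq_zero F 3
  have h2 : (2 : F) ≠ 0 := by
    intro h
    have : (1 : F) = 0 := by linear_combination h3 - h
    exact one_ne_zero this
  have : Fact (Nat.Prime 3) := ⟨Nat.prime_three⟩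
  rw [ff_val h2 h3 t n hn x y]
  obtain ⟨s, hs⟩ := frob (F := F) 3 (by norm_num) x.al
  obtain ⟨v, hv⟩ := wp_prod3 (F := F) (fun i => (y i).c) (fun i => (t i).c) (fun i => (t i).c)
    4 n 0
  have hv' : wp (F := F) (fun i => (y i).c) 4 * wp (fun i => (t i).c) n
      = ιMulti F (4 + (n + 0)) v := by
    rw [← hv]; simp [wp]
  rw [hs, hv', ← Algebra.smul_def, map_smul, topf_ne F (by omega), smul_zero]
  rfl

theorem ff_ne [CharP F 3] (m n : ℕ) (hn : Even n) (hm : m = 4 + n) :
    ∃ (t : ℕ → CA (topf F m)) (x : CA (topf F m)) (y : ℕ → CA (topf F m)),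
      ff t n x (y 0) (y 1) (y 2) (y 3) ≠ 0 := by
  have h3 : (3 : F) = 0 := by exact_mod_cast CharP.cast_eq_zero F 3
  have h2 : (2 : F) ≠ 0 := by
    intro h
    have : (1 : F) = 0 := by linear_combination h3 - h
    exact one_ne_zero this
  refine ⟨fun i => mk (xi F m (4 + i)) 0 0 0, mk 0 1 0 0, fun i => mk (xi F m i) 0 0 0, ?_⟩
  intro h
  have hval := ff_val (τ := topf F m) h2 h3 (fun i => mk (xi F m (4 + i)) 0 0 0) n hn
    (mk 0 1 0 0) (fun i => mk (xi F m i) 0 0 0)
  replace h := hval.symm.trans h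
  have hz := congrArg CA.z h
  rw [z_mk, z_zero] at hz
  simp only [c_mk, al_mk] at hz
  have e1 : ev (1 : ExteriorAlgebra F (Fin m → F)) = 1 := by
    have := ev_algebraMap (W := Fin m → F) h2 1
    simpa using this
  have e2 : wp (F := F) (fun i => xi F m i) 4 * wp (fun i => xi F m (4 + i)) n
      = wp (fun i => xi F m i) m := by
    rw [← wp_add, ← hm]
  rw [e1, one_pow, one_mul, e2, wp_ιMulti, topf_eq] at hz
  have e3 : Matrix.of (fun i : Fin m => xi F m i) = 1 := by
    ext i j
    rw [Matrix.of_apply, Matrix.one_apply, xi]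
    by_cases hij : i = j
    · rw [if_pos hij, if_pos (by rw [hij])]
    · rw [if_neg hij, if_neg (fun h => hij (Fin.ext h.symm))]
  rw [e3, Matrix.det_one] at hz
  exact one_ne_zero hz

end values

section final

open FreeNonUnitalNonAssocAlgebra

variable (F : Type u) [Field F]

/-- left alternativity -/
noncomputable def sAltL : FreeNonUnitalNonAssocAlgebra F ℕ :=
  (X F 0 * X F 0) * X F 1 - X F 0 * (X F 0 * X F 1)

/-- the infinite series of identities -/
noncomputable def sg' (r : ℕ) : FreeNonUnitalNonAssocAlgebra F ℕ :=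
  ff (fun i => X F (i + 5)) (2 * r) (X F 0) (X F 1) (X F 2) (X F 3) (X F 4)

/-- the set of identities -/
def setA : Set (FreeNonUnitalNonAssocAlgebra F ℕ) :=
  {sComm F, sAltL F, sSolv F} ∪ Set.range (sg' F)

theorem solv_of (B : Type u) [NonUnitalNonAssocRing B] [Module F B]
    [IsScalarTower F B B] [SMulCommClass F B B] (hs : Satisfies F B (sSolv F)) :
    H739SJ.derivedSeries F B 3 = ⊥ := by
  have key : ∀ a b c d e f g k : B, ((a * b) * (c * d)) * ((e * f) * (g * k)) = 0 := by
    intro a b c d e f g k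
    have := hs (fun i => if i = 0 then a else if i = 1 then b else if i = 2 then c else
      if i = 3 then d else if i = 4 then e else if i = 5 then f else if i = 6 then g else k)
    simp only [sSolv, X, map_mul, lift_of_apply] at this
    simpa using this
  have gen : ∀ k : ℕ, ∀ P : B → Prop, P 0 → (∀ x y, P x → P y → P (x + y)) →
      (∀ (r : F) x, P x → P (r • x)) →
      (∀ x ∈ H739SJ.derivedSeries F B k, ∀ y ∈ H739SJ.derivedSeries F B k, P (x * y)) →
      ∀ x ∈ H739SJ.derivedSeries F B (k + 1), P x := by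
    intro k P h0 ha hs' hm x hx
    rw [H739SJ.derivedSeries] at hx
    induction hx using Submodule.span_induction with
    | mem x hx => obtain ⟨y, hy, z, hz, rfl⟩ := hx; exact hm y hy z hz
    | zero => exact h0
    | add x y _ _ hx hy => exact ha x y hx hy
    | smul r x _ hx => exact hs' r x hx
  rw [eq_bot_iff]
  intro x hx
  rw [Submodule.mem_bot]
  refine gen 2 (fun x => x = 0) rfl (fun x y hx hy => by rw [hx, hy, add_zero])
    (fun r x hx => by rw [hx, smul_zero]) ?_ x hx
  intro x hx y hy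
  have hA : ∀ x ∈ H739SJ.derivedSeries F B 2, ∀ e f g k : B, x * ((e * f) * (g * k)) = 0 := by
    intro x hx e f g k
    refine gen 1 (fun x => x * ((e * f) * (g * k)) = 0) (zero_mul _)
      (fun x y hx hy => by rw [add_mul, hx, hy, add_zero])
      (fun r x hx => by rw [smul_mul_assoc, hx, smul_zero]) ?_ x hx
    intro x hx y hy
    refine gen 0 (fun x => (x * y) * ((e * f) * (g * k)) = 0)
      (by rw [zero_mul, zero_mul])
      (fun x y hx hy => by rw [add_mul, add_mul, hx, hy, add_zero])
      (fun r x hx => by rw [smul_mul_assoc, smul_mul_assoc, hx, smul_zero]) ?_ x hx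
    intro a _ b _
    refine gen 0 (fun y => ((a * b) * y) * ((e * f) * (g * k)) = 0)
      (by rw [mul_zero, zero_mul])
      (fun x y hx hy => by rw [mul_add, add_mul, hx, hy, add_zero])
      (fun r x hx => by rw [mul_smul_comm, smul_mul_assoc, hx, smul_zero]) ?_ y hy
    intro c _ d _
    exact key a b c d e f g k
  refine gen 1 (fun y => x * y = 0) (mul_zero _)
    (fun y z hy hz => by rw [mul_add, hy, hz, add_zero])
    (fun r y hy => by rw [mul_smul_comm, hy, smul_zero]) ?_ y hy
  intro y hy z hz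
  refine gen 0 (fun y => x * (y * z) = 0) (by rw [zero_mul, mul_zero])
    (fun y y' hy hz => by rw [add_mul, mul_add, hy, hz, add_zero])
    (fun r y hy => by rw [smul_mul_assoc, mul_smul_comm, hy, smul_zero]) ?_ y hy
  intro a _ b _
  refine gen 0 (fun z => x * ((a * b) * z) = 0) (by rw [mul_zero, mul_zero])
    (fun y y' hy hz => by rw [mul_add, mul_add, hy, hz, add_zero])
    (fun r y hy => by rw [mul_smul_comm, mul_smul_comm, hy, smul_zero]) ?_ z hz
  intro c _ d _
  exact hA x hx a b c d

theorem setA_alt (B : Type u) [NonUnitalNonAssocRing B] [Module F B]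
    [IsScalarTower F B B] [SMulCommClass F B B] (h : InVariety F (setA F) B) :
    (∀ x y : B, x * y = y * x) ∧ IsAlternativeAlgebra B ∧ H739SJ.derivedSeries F B 3 = ⊥ := by
  have hc : Satisfies F B (sComm F) := h _ (Or.inl (Or.inl rfl))
  have hj : Satisfies F B (sAltL F) := h _ (Or.inl (Or.inr (Or.inl rfl)))
  have hs : Satisfies F B (sSolv F) := h _ (Or.inl (Or.inr (Or.inr rfl)))
  have comm : ∀ x y : B, x * y = y * x := by
    intro x y
    have := hc (fun i => if i = 0 then x else y)
    simp only [sComm, X, map_sub, map_mul, lift_of_apply] at this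
    simpa [sub_eq_zero] using this
  have altl : ∀ x y : B, (x * x) * y - x * (x * y) = 0 := by
    intro x y
    have := hj (fun i => if i = 0 then x else y)
    simp only [sAltL, X, map_sub, map_mul, lift_of_apply] at this
    simpa using this
  refine ⟨comm, ⟨altl, fun x y => ?_⟩, solv_of F B hs⟩
  rw [comm (y * x) x, comm y x, comm y (x * x), ← neg_sub, altl x y, neg_zero]

theorem map_ff {A : Type*} [NonUnitalNonAssocRing A] [Module F A] {B : Type*}
    [NonUnitalNonAssocRing B] [Module F B] (φ : A →ₙₐ[F] B) (t : ℕ → A) (n : ℕ)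
    (x y0 y1 y2 y3 : A) :
    φ (ff t n x y0 y1 y2 y3)
      = ff (fun i => φ (t i)) n (φ x) (φ y0) (φ y1) (φ y2) (φ y3) := by
  simp only [ff, map_add, map_sub, map_mul, map_fill]

theorem sg'_eval (r : ℕ) (B : Type u) [NonUnitalNonAssocRing B] [Module F B]
    [IsScalarTower F B B] [SMulCommClass F B B] (v : ℕ → B) :
    FreeNonUnitalNonAssocAlgebra.lift F v (sg' F r)
      = ff (fun i => v (i + 5)) (2 * r) (v 0) (v 1) (v 2) (v 3) (v 4) := by
  rw [sg', map_ff]
  simp only [X, lift_of_apply]

/-- the algebras -/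
abbrev AC (r : ℕ) : Type u := CA (topf F (4 + 2 * r))

theorem main [CharP F 3] :
    ∃ S : Set (FreeNonUnitalNonAssocAlgebra F ℕ),
      (∀ (B : Type u) [NonUnitalNonAssocRing B] [Module F B] [IsScalarTower F B B]
        [SMulCommClass F B B], InVariety F S B →
          (∀ x y : B, x * y = y * x) ∧ IsAlternativeAlgebra B ∧ H739SJ.derivedSeries F B 3 = ⊥) ∧
      ∀ T : Set (FreeNonUnitalNonAssocAlgebra F ℕ), T.Finite →
        ¬ ∀ (B : Type u) [NonUnitalNonAssocRing B] [Module F B] [IsScalarTower F B B]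
          [SMulCommClass F B B], InVariety F S B ↔ InVariety F T B := by
  have h3 : (3 : F) = 0 := by exact_mod_cast CharP.cast_eq_zero F 3
  have h2 : (2 : F) ≠ 0 := by
    intro h
    have : (1 : F) = 0 := by linear_combination h3 - h
    exact one_ne_zero this
  refine ⟨setA F, fun B _ _ _ _ h => setA_alt F B h, ?_⟩
  intro T hT
  refine not_fb F (AC F) (setA F) ?_ ?_ T hT
  · intro s hs
    rcases hs with (rfl | rfl | rfl) | ⟨q, rfl⟩
    · refine Filter.Eventually.of_forall fun r v => ?_
      simp only [sComm, X, map_sub, map_mul, lift_of_apply]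
      rw [CA.comm, sub_self]
    · refine Filter.Eventually.of_forall fun r v => ?_
      simp only [sAltL, X, map_sub, map_mul, lift_of_apply]
      rw [CA.alt h2 h3, sub_self]
    · refine Filter.Eventually.of_forall fun r v => ?_
      simp only [sSolv, X, map_mul, lift_of_apply]
      have hc : ∀ a b : AC F r, (a * b).c = 0 := fun a b => CA.c_mul a b
      have hal : ∀ a b c d : AC F r, ((a * b) * (c * d)).al = 0 := by
        intro a b c d
        rw [CA.al_mul, hc, hc, map_zero, mul_zero, mul_zero, add_zero]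
      refine CA.ext (hc _ _) ?_ ?_ ?_
      · rw [CA.al_mul, hc, hc, map_zero, mul_zero, mul_zero, add_zero]; rfl
      · rw [CA.de_mul, hc, hc, hal, hal]; simp
      · rw [CA.z_mul, hal, hal]; simp
    · have hsub : {r | ¬ Satisfies F (AC F r) (sg' F q)} ⊆ {q} := by
        intro r hr
        by_contra hne
        apply hr
        intro v
        rw [sg'_eval]
        have := ff_zero (F := F) (4 + 2 * r) (2 * q) (even_two_mul q) (by
          intro h
          apply hne
          have : r = q := by omega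
          exact this) (fun i => v (i + 5)) (v 0) (fun i => v (i + 1))
        exact this
      exact (Set.finite_singleton q).subset hsub
  · intro r h
    have hr : Satisfies F (AC F r) (sg' F r) := h _ (Or.inr ⟨r, rfl⟩)
    obtain ⟨t, x, y, hne⟩ := ff_ne (F := F) (4 + 2 * r) (2 * r) (even_two_mul r) rfl
    apply hne
    have := hr (fun i => if i = 0 then x else if i < 5 then y (i - 1) else t (i - 5))
    rw [sg'_eval] at this
    simpa using this

end final

end Pool.Agent.H739SA
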